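import Mathlib
import Pool.Agent.Lib.MP_c37615_al.Mg.G001

/-!
MP_c37615_al PART A: comparison of two resolutions of the trivial module by locally induced modules
(double complex of coinvariants).
-/

set_option autoImplicit false

open TensorProduct

namespace C37Z

open C37A

section basic

variable {Γ : Type} [Group Γ]
variable {M N U W : Type} [AddCommGroup M] [Module ℝ M] [AddCommGroup N] [Module ℝ N]
  [AddCommGroup U] [Module ℝ U] [AddCommGroup W] [Module ℝ W]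

theorem cker_gen (ρ : Representation ℝ Γ M) (g : Γ) (x : M) : ρ g x - x ∈ Aug ρ :=
  Submodule.subset_span ⟨g, x, rfl⟩

theorem cker_map {ρ : Representation ℝ Γ M} {ν : Representation ℝ Γ N} {f : M →ₗ[ℝ] N}
    (hf : ∀ g x, f (ρ g x) = ν g (f x)) {x : M} (hx : x ∈ Aug ρ) : f x ∈ Aug ν := by
  refine Submodule.span_induction (p := fun y _ => f y ∈ Aug ν) ?_ ?_ ?_ ?_ hx
  · rintro y ⟨g, z, rfl⟩
    rw [map_sub, hf]
    exact cker_gen ν g (f z)
  · simp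
  · intro a b _ _ ha hb
    rw [map_add]; exact add_mem ha hb
  · intro c a _ ha
    rw [map_smul]; exact Submodule.smul_mem _ c ha

/-- a linear map which is invariant kills `Aug` -/
theorem cker_kill {ρ : Representation ℝ Γ M} {f : M →ₗ[ℝ] N}
    (hf : ∀ g x, f (ρ g x) = f x) {x : M} (hx : x ∈ Aug ρ) : f x = 0 := by
  refine Submodule.span_induction (p := fun y _ => f y = 0) ?_ ?_ ?_ ?_ hx
  · rintro y ⟨g, z, rfl⟩
    rw [map_sub, hf, sub_self]
  · simp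
  · intro a b _ _ ha hb
    rw [map_add, ha, hb, add_zero]
  · intro c a _ ha
    rw [map_smul, ha, smul_zero]

/-- the transfer map attached to `σ` -/
noncomputable def tau (ρ : Representation ℝ Γ M) (ν : Representation ℝ Γ N)
    (σ : M →ₗ[ℝ] (Γ →₀ M)) : M ⊗[ℝ] N →ₗ[ℝ] M ⊗[ℝ] N :=
  TensorProduct.lift ((Finsupp.lsum ℝ (fun h : Γ =>
    ((TensorProduct.mk ℝ M N).compl₂ (ν h⁻¹)) ∘ₗ (ρ h⁻¹))) ∘ₗ σ)

theorem tau_tmul (ρ : Representation ℝ Γ M) (ν : Representation ℝ Γ N)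
    (σ : M →ₗ[ℝ] (Γ →₀ M)) (m : M) (n : N) :
    tau ρ ν σ (m ⊗ₜ[ℝ] n) = (σ m).sum (fun h x => (ρ h⁻¹ x) ⊗ₜ[ℝ] (ν h⁻¹ n)) := by
  rw [tau, TensorProduct.lift.tmul, LinearMap.comp_apply, Finsupp.lsum_apply, Finsupp.sum,
    LinearMap.sum_apply]
  rfl

theorem tau_nat (ρ : Representation ℝ Γ M) (ν : Representation ℝ Γ N) (ω : Representation ℝ Γ W)
    (σ : M →ₗ[ℝ] (Γ →₀ M)) (f : N →ₗ[ℝ] W) (hf : ∀ g x, f (ν g x) = ω g (f x))
    (t : M ⊗[ℝ] N) : f.lTensor M (tau ρ ν σ t) = tau ρ ω σ (f.lTensor M t) := by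
  induction t using TensorProduct.induction_on with
  | zero => simp
  | tmul m n =>
    rw [tau_tmul, LinearMap.lTensor_tmul, tau_tmul, Finsupp.sum, Finsupp.sum, map_sum]
    refine Finset.sum_congr rfl fun h _ => ?_
    rw [LinearMap.lTensor_tmul, hf]
  | add a b ha hb => rw [map_add, map_add, map_add, map_add, ha, hb]

theorem tau_inv (ρ : Representation ℝ Γ M) (ν : Representation ℝ Γ N)
    (σ : M →ₗ[ℝ] (Γ →₀ M)) (hσ : ∀ g m h, σ (ρ g m) (g * h) = ρ g (σ m h)) (g : Γ)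
    (t : M ⊗[ℝ] N) : tau ρ ν σ (ρ.tprod ν g t) = tau ρ ν σ t := by
  induction t using TensorProduct.induction_on with
  | zero => simp
  | tmul m n =>
    rw [Representation.tprod_apply, TensorProduct.map_tmul, tau_tmul, tau_tmul]
    have h1 : σ (ρ g m) = Finsupp.mapDomain (fun h => g * h)
        (Finsupp.mapRange (ρ g) (map_zero _) (σ m)) := by
      ext k
      have hk : k = g * (g⁻¹ * k) := by group
      rw [hk, hσ, Finsupp.mapDomain_apply (mul_right_injective g), Finsupp.mapRange_apply]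
    rw [h1, Finsupp.sum_mapDomain_index_inj (mul_right_injective g),
      Finsupp.sum_mapRange_index (by intro h; simp)]
    refine Finsupp.sum_congr fun h _ => ?_
    have e1 : ∀ x : M, ρ (g * h)⁻¹ (ρ g x) = ρ h⁻¹ x := by
      intro x
      rw [← Module.End.mul_apply, ← map_mul]
      congr 2; group
    have e2 : ∀ x : N, ν (g * h)⁻¹ (ν g x) = ν h⁻¹ x := by
      intro x
      rw [← Module.End.mul_apply, ← map_mul]
      congr 2; group
    rw [e1, e2]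
  | add a b ha hb => rw [map_add, map_add, map_add, ha, hb]

theorem tau_sub (ρ : Representation ℝ Γ M) (ν : Representation ℝ Γ N)
    (σ : M →ₗ[ℝ] (Γ →₀ M)) (m : M) (n : N) (hm : (σ m).sum (fun _ x => x) = m) :
    m ⊗ₜ[ℝ] n - tau ρ ν σ (m ⊗ₜ[ℝ] n) ∈ Aug (ρ.tprod ν) := by
  rw [tau_tmul]
  have h1 : m ⊗ₜ[ℝ] n = (σ m).sum (fun _ x => x ⊗ₜ[ℝ] n) := by
    conv_lhs => rw [← hm]
    rw [Finsupp.sum, Finsupp.sum, TensorProduct.sum_tmul]
  rw [h1, Finsupp.sum, Finsupp.sum, ← Finset.sum_sub_distrib]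
  refine Submodule.sum_mem _ fun h _ => ?_
  have h2 := cker_gen (ρ.tprod ν) h⁻¹ ((σ m h) ⊗ₜ[ℝ] n)
  rw [Representation.tprod_apply, TensorProduct.map_tmul] at h2
  have h3 := Submodule.neg_mem _ h2
  rwa [neg_sub] at h3

/-- exactness of coinvariants of the tensor product, left factor locally induced -/
theorem flat_left {ρ : Representation ℝ Γ M} (hρ : LocInd ρ)
    {ν : Representation ℝ Γ N} {ω : Representation ℝ Γ W} {f : U →ₗ[ℝ] N} {g : N →ₗ[ℝ] W}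
    (hg : ∀ γ x, g (ν γ x) = ω γ (g x)) (h0 : ∀ u, g (f u) = 0)
    (hex : ∀ v, g v = 0 → ∃ u, f u = v) (t : M ⊗[ℝ] N)
    (ht : g.lTensor M t ∈ Aug (ρ.tprod ω)) :
    ∃ s : M ⊗[ℝ] U, t - f.lTensor M s ∈ Aug (ρ.tprod ν) := by
  classical
  obtain ⟨S, hS⟩ := TensorProduct.exists_finset t
  obtain ⟨σ, hσ1, hσ2⟩ := hρ (S.image Prod.fst)
  have hk : g.lTensor M (tau ρ ν σ t) = 0 := by
    rw [tau_nat ρ ν ω σ g hg]
    exact cker_kill (fun γ x => tau_inv ρ ω σ hσ1 γ x) ht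
  have hexact : Function.Exact f g := fun v => ⟨fun hv => hex v hv, by rintro ⟨u, rfl⟩; exact h0 u⟩
  obtain ⟨s, hs⟩ := (Module.Flat.lTensor_exact M hexact (tau ρ ν σ t)).1 hk
  refine ⟨s, ?_⟩
  rw [hs]
  conv in t - _ => rw [hS]
  rw [map_sum, ← Finset.sum_sub_distrib]
  refine Submodule.sum_mem _ fun i hi => ?_
  exact tau_sub ρ ν σ i.1 i.2 (hσ2 i.1 (Finset.mem_image_of_mem _ hi))

theorem comm_Aug (ρ : Representation ℝ Γ M) (ν : Representation ℝ Γ N) {t : M ⊗[ℝ] N}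
    (ht : t ∈ Aug (ρ.tprod ν)) : TensorProduct.comm ℝ M N t ∈ Aug (ν.tprod ρ) := by
  refine cker_map (f := (TensorProduct.comm ℝ M N).toLinearMap) (fun g x => ?_) ht
  induction x using TensorProduct.induction_on with
  | zero => simp
  | tmul m n => simp
  | add a b ha hb => rw [map_add, map_add, map_add, map_add, ha, hb]

theorem comm_cker_iff (ρ : Representation ℝ Γ M) (ν : Representation ℝ Γ N) {t : M ⊗[ℝ] N} :
    TensorProduct.comm ℝ M N t ∈ Aug (ν.tprod ρ) ↔ t ∈ Aug (ρ.tprod ν) := by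
  refine ⟨fun h => ?_, comm_Aug ρ ν⟩
  have := comm_Aug ν ρ h
  rwa [TensorProduct.comm_comm] at this

theorem comm_rTensor (g : N →ₗ[ℝ] W) (t : N ⊗[ℝ] M) :
    TensorProduct.comm ℝ W M (g.rTensor M t) = g.lTensor M (TensorProduct.comm ℝ N M t) := by
  induction t using TensorProduct.induction_on with
  | zero => simp
  | tmul m n => simp
  | add a b ha hb => simp only [map_add, ha, hb]

/-- exactness of coinvariants of the tensor product, right factor locally induced -/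
theorem flat_right {ρ : Representation ℝ Γ M} (hρ : LocInd ρ)
    {ν : Representation ℝ Γ N} {ω : Representation ℝ Γ W} {f : U →ₗ[ℝ] N} {g : N →ₗ[ℝ] W}
    (hg : ∀ γ x, g (ν γ x) = ω γ (g x)) (h0 : ∀ u, g (f u) = 0)
    (hex : ∀ v, g v = 0 → ∃ u, f u = v) (t : N ⊗[ℝ] M)
    (ht : g.rTensor M t ∈ Aug (ω.tprod ρ)) :
    ∃ s : U ⊗[ℝ] M, t - f.rTensor M s ∈ Aug (ν.tprod ρ) := by
  obtain ⟨s, hs⟩ := flat_left hρ hg h0 hex (TensorProduct.comm ℝ N M t) (by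
    rw [← comm_rTensor, comm_cker_iff]; exact ht)
  refine ⟨TensorProduct.comm ℝ M U s, ?_⟩
  rw [← comm_cker_iff, map_sub, comm_rTensor, TensorProduct.comm_comm]
  exact hs

end basic

/-- bundled representations -/
structure RB (Γ : Type) [Group Γ] where
  M : Type
  [ac : AddCommGroup M]
  [mo : Module ℝ M]
  ρ : Representation ℝ Γ M

attribute [instance] RB.ac RB.mo

variable {Γ : Type} [Group Γ]

/-- equivariant maps -/
structure Hm (A B : RB Γ) where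
  f : A.M →ₗ[ℝ] B.M
  eq : ∀ g x, f (A.ρ g x) = B.ρ g (f x)

/-- the zero map -/
def Hm.zero (A B : RB Γ) : Hm A B := ⟨0, fun g x => by simp⟩

/-- the zero module -/
def RB.zero : RB Γ := ⟨PUnit, 1⟩

/-- the trivial module -/
def RB.triv : RB Γ := ⟨ℝ, 1⟩

/-- vanishing of the homology at `A1 ⊗ B1` on the diagonal -/
def Zv {A0 A1 A2 B0 B1 B2 : RB Γ} (a0 : Hm A0 A1) (a1 : Hm A1 A2) (b0 : Hm B0 B1)
    (b1 : Hm B1 B2) : Prop :=
  ∀ s : A1.M ⊗[ℝ] B1.M, a1.f.rTensor B1.M s ∈ Aug (A2.ρ.tprod B1.ρ) →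
    b1.f.lTensor A1.M s ∈ Aug (A1.ρ.tprod B2.ρ) →
    ∃ z : A0.M ⊗[ℝ] B0.M, s - TensorProduct.map a0.f b0.f z ∈ Aug (A1.ρ.tprod B1.ρ)

/-- exactness at the middle -/
def Ex {A0 A1 A2 : RB Γ} (a0 : Hm A0 A1) (a1 : Hm A1 A2) : Prop :=
  (∀ x, a1.f (a0.f x) = 0) ∧ ∀ v, a1.f v = 0 → ∃ u, a0.f u = v

theorem rT_cker {A A' B : RB Γ} (a : Hm A A') {t : A.M ⊗[ℝ] B.M} (ht : t ∈ Aug (A.ρ.tprod B.ρ)) :
    a.f.rTensor B.M t ∈ Aug (A'.ρ.tprod B.ρ) := by
  refine cker_map (fun g x => ?_) ht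
  induction x using TensorProduct.induction_on with
  | zero => simp
  | tmul m n => simp [a.eq]
  | add a b ha hb => simp only [map_add, ha, hb]

theorem lT_cker {A B B' : RB Γ} (b : Hm B B') {t : A.M ⊗[ℝ] B.M} (ht : t ∈ Aug (A.ρ.tprod B.ρ)) :
    b.f.lTensor A.M t ∈ Aug (A.ρ.tprod B'.ρ) := by
  refine cker_map (fun g x => ?_) ht
  induction x using TensorProduct.induction_on with
  | zero => simp
  | tmul m n => simp [b.eq]
  | add a b ha hb => simp only [map_add, ha, hb]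

theorem rl_comm {A A' B B' : RB Γ} (a : Hm A A') (b : Hm B B') (t : A.M ⊗[ℝ] B.M) :
    a.f.rTensor B'.M (b.f.lTensor A.M t) = b.f.lTensor A'.M (a.f.rTensor B.M t) := by
  induction t using TensorProduct.induction_on with
  | zero => simp
  | tmul m n => simp
  | add a b ha hb => simp only [map_add, ha, hb]

theorem map_eq_rl {A A' B B' : RB Γ} (a : Hm A A') (b : Hm B B') (t : A.M ⊗[ℝ] B.M) :
    TensorProduct.map a.f b.f t = b.f.lTensor A'.M (a.f.rTensor B.M t) := by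
  induction t using TensorProduct.induction_on with
  | zero => simp
  | tmul m n => simp
  | add a b ha hb => simp only [map_add, ha, hb]

theorem rr_zero {A A' A'' B : RB Γ} (a : Hm A A') (a' : Hm A' A'') (h : ∀ x, a'.f (a.f x) = 0)
    (t : A.M ⊗[ℝ] B.M) : a'.f.rTensor B.M (a.f.rTensor B.M t) = 0 := by
  induction t using TensorProduct.induction_on with
  | zero => simp
  | tmul m n => simp [h]
  | add a b ha hb => simp only [map_add, ha, hb, add_zero]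

theorem ll_zero {A B B' B'' : RB Γ} (b : Hm B B') (b' : Hm B' B'') (h : ∀ x, b'.f (b.f x) = 0)
    (t : A.M ⊗[ℝ] B.M) : b'.f.lTensor A.M (b.f.lTensor A.M t) = 0 := by
  induction t using TensorProduct.induction_on with
  | zero => simp
  | tmul m n => simp [h]
  | add a b ha hb => simp only [map_add, ha, hb, add_zero]

theorem switch {A0 A1 A2 A3 B0 B1 B2 B3 : RB Γ} (a0 : Hm A0 A1) (a1 : Hm A1 A2) (a2 : Hm A2 A3)
    (b0 : Hm B0 B1) (b1 : Hm B1 B2) (b2 : Hm B2 B3) (hA : LocInd A1.ρ) (hB : LocInd B1.ρ)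
    (ea1 : Ex a0 a1) (ea2 : Ex a1 a2) (eb1 : Ex b0 b1) (eb2 : Ex b1 b2) :
    Zv a0 a1 b1 b2 ↔ Zv a1 a2 b0 b1 := by
  constructor
  · intro h y hy1 hy2
    -- row B1 exact at A2
    obtain ⟨x, hx⟩ := flat_right (f := a1.f) (g := a2.f) hB a2.eq ea2.1 ea2.2 y hy1
    have h1 : a1.f.rTensor B2.M (b1.f.lTensor A1.M x) ∈ Aug (A2.ρ.tprod B2.ρ) := by
      rw [rl_comm]
      have := lT_cker b1 hx
      rw [map_sub] at this
      have h2 := sub_mem hy2 this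
      rwa [sub_sub_cancel] at h2
    have h2 : b2.f.lTensor A1.M (b1.f.lTensor A1.M x) ∈ Aug (A1.ρ.tprod B3.ρ) := by
      rw [ll_zero b1 b2 eb2.1]; exact zero_mem _
    obtain ⟨z, hz⟩ := h _ h1 h2
    rw [map_eq_rl, ← map_sub] at hz
    obtain ⟨w, hw⟩ := flat_left (f := b0.f) (g := b1.f) hA b1.eq eb1.1 eb1.2
      (x - a0.f.rTensor B1.M z) hz
    refine ⟨w, ?_⟩
    have h3 := rT_cker a1 hw
    rw [map_sub, map_sub, rr_zero a0 a1 ea1.1, sub_zero, rl_comm, ← map_eq_rl] at h3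
    have h4 := add_mem hx h3
    rwa [sub_add_sub_cancel] at h4
  · intro h y hy1 hy2
    obtain ⟨x, hx⟩ := flat_left (f := b1.f) (g := b2.f) hA b2.eq eb2.1 eb2.2 y hy2
    have h1 : b1.f.lTensor A2.M (a1.f.rTensor B1.M x) ∈ Aug (A2.ρ.tprod B2.ρ) := by
      rw [← rl_comm]
      have := rT_cker a1 hx
      rw [map_sub] at this
      have h2 := sub_mem hy1 this
      rwa [sub_sub_cancel] at h2
    have h2 : a2.f.rTensor B1.M (a1.f.rTensor B1.M x) ∈ Aug (A3.ρ.tprod B1.ρ) := by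
      rw [rr_zero a1 a2 ea2.1]; exact zero_mem _
    obtain ⟨w, hw⟩ := h _ h2 h1
    rw [map_eq_rl, ← rl_comm, ← map_sub] at hw
    obtain ⟨z, hz⟩ := flat_right (f := a0.f) (g := a1.f) hB a1.eq ea1.1 ea1.2
      (x - b0.f.lTensor A1.M w) hw
    refine ⟨z, ?_⟩
    have h3 := lT_cker b1 hz
    rw [map_sub, map_sub, ll_zero b0 b1 eb1.1, sub_zero, ← map_eq_rl] at h3
    have h4 := add_mem hx h3
    rwa [sub_add_sub_cancel] at h4

theorem chain (X Y : ℕ → RB Γ) (dx : ∀ k, Hm (X k) (X (k + 1))) (dy : ∀ k, Hm (Y k) (Y (k + 1)))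
    (ex : ∀ k, Ex (dx k) (dx (k + 1))) (ey : ∀ k, Ex (dy k) (dy (k + 1))) (n : ℕ)
    (fx : ∀ k, k < n → LocInd (X (k + 1)).ρ) (fy : ∀ k, k < n → LocInd (Y (k + 1)).ρ) :
    ∀ j l, j + l = n → (Zv (dx 0) (dx 1) (dy n) (dy (n + 1)) ↔
      Zv (dx j) (dx (j + 1)) (dy l) (dy (l + 1))) := by
  intro j
  induction j with
  | zero => intro l hl; obtain rfl : l = n := by omega
            exact Iff.rfl
  | succ j ih =>
    intro l hl
    refine (ih (l + 1) (by omega)).trans ?_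
    exact switch (dx j) (dx (j + 1)) (dx (j + 2)) (dy l) (dy (l + 1)) (dy (l + 2))
      (fx j (by omega)) (fy l (by omega)) (ex j) (ex (j + 1)) (ey l) (ey (l + 1))

/-- truncated sequences `P 0 → ... → P n → E → 0 → ...` -/
def tr : ℕ → (ℕ → RB Γ) → RB Γ → ℕ → RB Γ
  | 0, P, _, 0 => P 0
  | 0, _, E, 1 => E
  | 0, _, _, _ + 2 => RB.zero
  | _ + 1, P, _, 0 => P 0
  | n + 1, P, E, k + 1 => tr n (fun j => P (j + 1)) E k

/-- their differentials -/
def trd : (n : ℕ) → (P : ℕ → RB Γ) → (E : RB Γ) → (d : ∀ k, Hm (P k) (P (k + 1))) →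
    (ε : Hm (P n) E) → (k : ℕ) → Hm (tr n P E k) (tr n P E (k + 1))
  | 0, _, _, _, ε, 0 => ε
  | 0, _, _, _, _, 1 => Hm.zero _ _
  | 0, _, _, _, _, _ + 2 => Hm.zero _ _
  | 1, _, _, d, _, 0 => d 0
  | _ + 2, _, _, d, _, 0 => d 0
  | n + 1, P, E, d, ε, k + 1 => trd n (fun j => P (j + 1)) E (fun j => d (j + 1)) ε k

theorem ex_zero_zero (A : RB Γ) : Ex (Hm.zero A RB.zero) (Hm.zero RB.zero (RB.zero : RB Γ)) :=
  ⟨fun _ => rfl, fun _ _ => ⟨0, rfl⟩⟩

theorem tr_ex (m : ℕ) : ∀ (P : ℕ → RB Γ) (E : RB Γ) (d : ∀ k, Hm (P k) (P (k + 1)))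
    (ε : Hm (P (m + 1)) E), (∀ v, ∃ u, ε.f u = v) → Ex (d m) ε →
    (∀ k, k < m → Ex (d k) (d (k + 1))) →
    ∀ k, Ex (trd (m + 1) P E d ε k) (trd (m + 1) P E d ε (k + 1)) := by
  induction m with
  | zero =>
    intro P E d ε hs ht _ k
    match k with
    | 0 => exact ht
    | 1 => exact ⟨fun _ => rfl, fun v _ => hs v⟩
    | 2 => exact ex_zero_zero _
    | _ + 3 => exact ex_zero_zero _
  | succ m ih =>
    intro P E d ε hs ht hm k
    match k with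
    | 0 =>
      have := hm 0 (by omega)
      cases m with
      | zero => exact this
      | succ m => exact this
    | k + 1 =>
      exact ih (fun j => P (j + 1)) E (fun j => d (j + 1)) ε hs ht
        (fun j hj => hm (j + 1) (by omega)) k

theorem tr_loc (n : ℕ) : ∀ (P : ℕ → RB Γ) (E : RB Γ), (∀ k, k ≤ n → LocInd (P k).ρ) →
    ∀ k, k ≤ n → LocInd (tr n P E k).ρ := by
  induction n with
  | zero =>
    intro P E h k hk
    obtain rfl : k = 0 := by omega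
    exact h 0 le_rfl
  | succ n ih =>
    intro P E h k hk
    match k with
    | 0 => exact h 0 (by omega)
    | k + 1 => exact ih (fun j => P (j + 1)) E (fun j hj => h (j + 1) (by omega)) k (by omega)

/-- one-dimensional trivial modules -/
structure IsTriv (E : RB Γ) (e : E.M →ₗ[ℝ] ℝ) (u : E.M) : Prop where
  act : ∀ g x, E.ρ g x = x
  rep : ∀ x, e x • u = x

theorem one_tmul_Aug {E : RB Γ} {e : E.M →ₗ[ℝ] ℝ} {u : E.M} (hE : IsTriv E e u) {B : RB Γ}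
    {x : B.M} (hx : x ∈ Aug B.ρ) : u ⊗ₜ[ℝ] x ∈ Aug (E.ρ.tprod B.ρ) := by
  refine cker_map (f := TensorProduct.mk ℝ E.M B.M u) (fun g x => ?_) hx
  rw [Representation.tprod_apply, TensorProduct.mk_apply, TensorProduct.mk_apply,
    TensorProduct.map_tmul, hE.act]

theorem tmul_one_Aug {E : RB Γ} {e : E.M →ₗ[ℝ] ℝ} {u : E.M} (hE : IsTriv E e u) {B : RB Γ}
    {x : B.M} (hx : x ∈ Aug B.ρ) : x ⊗ₜ[ℝ] u ∈ Aug (B.ρ.tprod E.ρ) := by
  refine cker_map (f := (TensorProduct.mk ℝ B.M E.M).flip u) (fun g x => ?_) hx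
  rw [Representation.tprod_apply, LinearMap.flip_apply, LinearMap.flip_apply,
    TensorProduct.mk_apply, TensorProduct.mk_apply, TensorProduct.map_tmul, hE.act]

/-- `x ⊗ b ↦ e x • b` -/
noncomputable def Lm (E B : RB Γ) (e : E.M →ₗ[ℝ] ℝ) : E.M ⊗[ℝ] B.M →ₗ[ℝ] B.M :=
  (TensorProduct.lid ℝ B.M).toLinearMap ∘ₗ e.rTensor B.M

theorem Lm_tmul (E B : RB Γ) (e : E.M →ₗ[ℝ] ℝ) (x : E.M) (b : B.M) :
    Lm E B e (x ⊗ₜ[ℝ] b) = e x • b := by
  simp [Lm]

/-- `b ⊗ x ↦ e x • b` -/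
noncomputable def Rm (E B : RB Γ) (e : E.M →ₗ[ℝ] ℝ) : B.M ⊗[ℝ] E.M →ₗ[ℝ] B.M :=
  (TensorProduct.rid ℝ B.M).toLinearMap ∘ₗ e.lTensor B.M

theorem Rm_tmul (E B : RB Γ) (e : E.M →ₗ[ℝ] ℝ) (x : E.M) (b : B.M) :
    Rm E B e (b ⊗ₜ[ℝ] x) = e x • b := by
  simp [Rm]

theorem Lm_Aug {E : RB Γ} {e : E.M →ₗ[ℝ] ℝ} {u : E.M} (hE : IsTriv E e u) {B : RB Γ}
    {t : E.M ⊗[ℝ] B.M} (ht : t ∈ Aug (E.ρ.tprod B.ρ)) : Lm E B e t ∈ Aug B.ρ := by
  refine cker_map (fun g x => ?_) ht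
  induction x using TensorProduct.induction_on with
  | zero => simp
  | tmul m n =>
    rw [Representation.tprod_apply, TensorProduct.map_tmul, hE.act, Lm_tmul, Lm_tmul, map_smul]
  | add a b ha hb => simp only [map_add, ha, hb]

theorem Rm_Aug {E : RB Γ} {e : E.M →ₗ[ℝ] ℝ} {u : E.M} (hE : IsTriv E e u) {B : RB Γ}
    {t : B.M ⊗[ℝ] E.M} (ht : t ∈ Aug (B.ρ.tprod E.ρ)) : Rm E B e t ∈ Aug B.ρ := by
  refine cker_map (fun g x => ?_) ht
  induction x using TensorProduct.induction_on with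
  | zero => simp
  | tmul m n =>
    rw [Representation.tprod_apply, TensorProduct.map_tmul, hE.act, Rm_tmul, Rm_tmul, map_smul]
  | add a b ha hb => simp only [map_add, ha, hb]

theorem tmul_Lm {E : RB Γ} {e : E.M →ₗ[ℝ] ℝ} {u : E.M} (hE : IsTriv E e u) {B : RB Γ}
    (t : E.M ⊗[ℝ] B.M) : u ⊗ₜ[ℝ] (Lm E B e t) = t := by
  induction t using TensorProduct.induction_on with
  | zero => simp
  | tmul m n => rw [Lm_tmul, ← TensorProduct.smul_tmul, hE.rep]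
  | add a b ha hb => rw [map_add, TensorProduct.tmul_add, ha, hb]

theorem tmul_Rm {E : RB Γ} {e : E.M →ₗ[ℝ] ℝ} {u : E.M} (hE : IsTriv E e u) {B : RB Γ}
    (t : B.M ⊗[ℝ] E.M) : (Rm E B e t) ⊗ₜ[ℝ] u = t := by
  induction t using TensorProduct.induction_on with
  | zero => simp
  | tmul m n => rw [Rm_tmul, TensorProduct.smul_tmul, hE.rep]
  | add a b ha hb => rw [map_add, TensorProduct.add_tmul, ha, hb]

theorem end_right0 {E Z A0 B0 B1 B2 : RB Γ} {e : E.M →ₗ[ℝ] ℝ} {u : E.M} (hE : IsTriv E e u)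
    (he : e u = 1) (ε : Hm A0 E) (hs : ∃ a, ε.f a = u) (b0 : Hm B0 B1) (b1 : Hm B1 B2) :
    Zv ε (Hm.zero E Z) b0 b1 ↔
      ∀ y : B1.M, b1.f y ∈ Aug B2.ρ → ∃ z : B0.M, y - b0.f z ∈ Aug B1.ρ := by
  constructor
  · intro h y hy
    obtain ⟨z, hz⟩ := h (u ⊗ₜ[ℝ] y) (by
        rw [LinearMap.rTensor_tmul, Hm.zero, LinearMap.zero_apply, TensorProduct.zero_tmul]
        exact zero_mem _) (by
        rw [LinearMap.lTensor_tmul]; exact one_tmul_Aug hE hy)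
    refine ⟨Lm E B0 e (ε.f.rTensor B0.M z), ?_⟩
    have h1 := Lm_Aug hE hz
    have h3 : ∀ z : A0.M ⊗[ℝ] B0.M, Lm E B1 e (TensorProduct.map ε.f b0.f z) =
        b0.f (Lm E B0 e (ε.f.rTensor B0.M z)) := by
      intro z
      induction z using TensorProduct.induction_on with
      | zero => simp
      | tmul m n => rw [TensorProduct.map_tmul, LinearMap.rTensor_tmul, Lm_tmul, Lm_tmul, map_smul]
      | add a b ha hb => simp only [map_add, ha, hb]
    rw [map_sub, h3, Lm_tmul, he, one_smul] at h1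
    exact h1
  · intro h s _ hs2
    obtain ⟨a, ha⟩ := hs
    have h0 : ∀ t : E.M ⊗[ℝ] B1.M, b1.f (Lm E B1 e t) = Lm E B2 e (b1.f.lTensor E.M t) := by
      intro t
      induction t using TensorProduct.induction_on with
      | zero => simp
      | tmul m n => rw [LinearMap.lTensor_tmul, Lm_tmul, Lm_tmul, map_smul]
      | add a b ha hb => simp only [map_add, ha, hb]
    obtain ⟨z, hz⟩ := h (Lm E B1 e s) (by rw [h0]; exact Lm_Aug hE hs2)
    refine ⟨a ⊗ₜ[ℝ] z, ?_⟩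
    have h4 := one_tmul_Aug hE hz
    rw [TensorProduct.tmul_sub, tmul_Lm hE] at h4
    rw [TensorProduct.map_tmul, ha]
    exact h4

theorem end_left0 {E Z A0 A1 A2 B0 : RB Γ} {e : E.M →ₗ[ℝ] ℝ} {u : E.M} (hE : IsTriv E e u)
    (he : e u = 1) (ε : Hm B0 E) (hs : ∃ a, ε.f a = u) (a0 : Hm A0 A1) (a1 : Hm A1 A2) :
    Zv a0 a1 ε (Hm.zero E Z) ↔
      ∀ y : A1.M, a1.f y ∈ Aug A2.ρ → ∃ z : A0.M, y - a0.f z ∈ Aug A1.ρ := by
  constructor
  · intro h y hy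
    obtain ⟨z, hz⟩ := h (y ⊗ₜ[ℝ] u) (by
        rw [LinearMap.rTensor_tmul]; exact tmul_one_Aug hE hy) (by
        rw [LinearMap.lTensor_tmul, Hm.zero, LinearMap.zero_apply, TensorProduct.tmul_zero]
        exact zero_mem _)
    refine ⟨Rm E A0 e (ε.f.lTensor A0.M z), ?_⟩
    have h1 := Rm_Aug hE hz
    have h3 : ∀ z : A0.M ⊗[ℝ] B0.M, Rm E A1 e (TensorProduct.map a0.f ε.f z) =
        a0.f (Rm E A0 e (ε.f.lTensor A0.M z)) := by
      intro z
      induction z using TensorProduct.induction_on with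
      | zero => simp
      | tmul m n => rw [TensorProduct.map_tmul, LinearMap.lTensor_tmul, Rm_tmul, Rm_tmul, map_smul]
      | add a b ha hb => simp only [map_add, ha, hb]
    rw [map_sub, h3, Rm_tmul, he, one_smul] at h1
    exact h1
  · intro h s hs1 _
    obtain ⟨a, ha⟩ := hs
    have h0 : ∀ t : A1.M ⊗[ℝ] E.M, a1.f (Rm E A1 e t) = Rm E A2 e (a1.f.rTensor E.M t) := by
      intro t
      induction t using TensorProduct.induction_on with
      | zero => simp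
      | tmul m n => rw [LinearMap.rTensor_tmul, Rm_tmul, Rm_tmul, map_smul]
      | add a b ha hb => simp only [map_add, ha, hb]
    obtain ⟨z, hz⟩ := h (Rm E A1 e s) (by rw [h0]; exact Rm_Aug hE hs1)
    refine ⟨z ⊗ₜ[ℝ] a, ?_⟩
    have h4 := tmul_one_Aug hE hz
    rw [TensorProduct.sub_tmul, tmul_Rm hE] at h4
    rw [TensorProduct.map_tmul, ha]
    exact h4

theorem end_right {E : RB Γ} {e : E.M →ₗ[ℝ] ℝ} {u : E.M} (hE : IsTriv E e u) (he : e u = 1)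
    (n : ℕ) : ∀ (P : ℕ → RB Γ) (d : ∀ k, Hm (P k) (P (k + 1)))
    (ε : Hm (P n) E), (∃ a, ε.f a = u) → ∀ {B0 B1 B2 : RB Γ} (b0 : Hm B0 B1)
    (b1 : Hm B1 B2), (Zv (trd n P E d ε n) (trd n P E d ε (n + 1)) b0 b1 ↔
      ∀ y : B1.M, b1.f y ∈ Aug B2.ρ → ∃ z : B0.M, y - b0.f z ∈ Aug B1.ρ) := by
  induction n with
  | zero => intro P d ε hs B0 B1 B2 b0 b1; exact end_right0 hE he ε hs b0 b1
  | succ n ih =>
    intro P d ε hs B0 B1 B2 b0 b1
    cases n with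
    | zero => exact ih (fun j => P (j + 1)) (fun j => d (j + 1)) ε hs b0 b1
    | succ n => exact ih (fun j => P (j + 1)) (fun j => d (j + 1)) ε hs b0 b1

theorem end_left {E : RB Γ} {e : E.M →ₗ[ℝ] ℝ} {u : E.M} (hE : IsTriv E e u) (he : e u = 1)
    (n : ℕ) : ∀ (P : ℕ → RB Γ) (d : ∀ k, Hm (P k) (P (k + 1)))
    (ε : Hm (P n) E), (∃ a, ε.f a = u) → ∀ {A0 A1 A2 : RB Γ} (a0 : Hm A0 A1)
    (a1 : Hm A1 A2), (Zv a0 a1 (trd n P E d ε n) (trd n P E d ε (n + 1)) ↔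
      ∀ y : A1.M, a1.f y ∈ Aug A2.ρ → ∃ z : A0.M, y - a0.f z ∈ Aug A1.ρ) := by
  induction n with
  | zero => intro P d ε hs A0 A1 A2 a0 a1; exact end_left0 hE he ε hs a0 a1
  | succ n ih =>
    intro P d ε hs A0 A1 A2 a0 a1
    cases n with
    | zero => exact ih (fun j => P (j + 1)) (fun j => d (j + 1)) ε hs a0 a1
    | succ n => exact ih (fun j => P (j + 1)) (fun j => d (j + 1)) ε hs a0 a1

/-- the zigzag theorem (owner: helper28) -/
theorem zig {G : Type} [Group G] {m : ℕ} {P Q : ℕ → Type} [∀ k, AddCommGroup (P k)] [∀ k, Module ℝ (P k)]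
    [∀ k, AddCommGroup (Q k)] [∀ k, Module ℝ (Q k)] {ρ : ∀ k, Representation ℝ G (P k)}
    {d : ∀ k, P k →ₗ[ℝ] P (k + 1)} {ε : P (m + 1) →ₗ[ℝ] ℝ} {ρ' : ∀ k, Representation ℝ G (Q k)}
    {d' : ∀ k, Q k →ₗ[ℝ] Q (k + 1)} {ε' : Q (m + 1 + 1) →ₗ[ℝ] ℝ} (hP : Res m P ρ d ε)
    (hQ : Res (m + 1) Q ρ' d' ε') :
    (∀ x : P 0, d 0 x ∈ Aug (ρ 1) → x ∈ Aug (ρ 0)) ↔
      (∀ y : Q 1, d' 1 y ∈ Aug (ρ' 2) → ∃ z : Q 0, y - d' 0 z ∈ Aug (ρ' 1)) := by
  -- the bundled sequences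
  let E : RB G := RB.triv
  let e : E.M →ₗ[ℝ] ℝ := LinearMap.id
  let u : E.M := (1 : ℝ)
  have hE : IsTriv E e u := ⟨fun _ _ => rfl, fun x => mul_one (M := ℝ) x⟩
  have he : e u = 1 := rfl
  let PP : ℕ → RB G := fun k => ⟨P k, ρ k⟩
  let QQ : ℕ → RB G := fun k => ⟨Q k, ρ' k⟩
  let dP : ∀ k, Hm (PP k) (PP (k + 1)) := fun k => ⟨d k, hP.equi k⟩
  let dQ : ∀ k, Hm (QQ k) (QQ (k + 1)) := fun k => ⟨d' k, hQ.equi k⟩
  let eP : Hm (PP (m + 1)) E := ⟨ε, hP.einv⟩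
  let eQ : Hm (QQ (m + 1 + 1)) E := ⟨ε', hQ.einv⟩
  have hsP : ∀ v, ∃ w, eP.f w = v := by
    intro (v : ℝ)
    obtain ⟨x, hx⟩ := hP.esurj
    have h : ε (v • x) = v := by rw [map_smul, hx]; exact mul_one v
    exact ⟨(v • x : P (m + 1)), h⟩
  have hsQ : ∀ v, ∃ w, eQ.f w = v := by
    intro (v : ℝ)
    obtain ⟨x, hx⟩ := hQ.esurj
    have h : ε' (v • x) = v := by rw [map_smul, hx]; exact mul_one v
    exact ⟨(v • x : Q (m + 1 + 1)), h⟩
  let X : ℕ → RB G := fun k => match k with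
    | 0 => RB.zero
    | k + 1 => tr (m + 1) PP E k
  let dx : ∀ k, Hm (X k) (X (k + 1)) := fun k => match k with
    | 0 => Hm.zero _ _
    | k + 1 => trd (m + 1) PP E dP eP k
  let Y : ℕ → RB G := tr (m + 1 + 1) QQ E
  let dy : ∀ k, Hm (Y k) (Y (k + 1)) := trd (m + 1 + 1) QQ E dQ eQ
  have exP := tr_ex m PP E dP eP hsP ⟨hP.ed, hP.top⟩ (fun k hk => ⟨hP.dd k, hP.exact k hk⟩)
  have exQ := tr_ex (m + 1) QQ E dQ eQ hsQ ⟨hQ.ed, hQ.top⟩
    (fun k hk => ⟨hQ.dd k, hQ.exact k hk⟩)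
  have ex : ∀ k, Ex (dx k) (dx (k + 1)) := by
    intro k
    match k with
    | 0 =>
      refine ⟨fun x => map_zero _, fun v hv => ⟨0, ?_⟩⟩
      have h1 : v = 0 := by
        cases m with
        | zero => exact hP.inj v hv
        | succ m => exact hP.inj v hv
      rw [h1]; rfl
    | k + 1 => exact exP k
  have hc := chain X Y dx dy ex exQ (m + 1 + 1)
    (fun k hk => tr_loc (m + 1) PP E (fun j hj => hP.loc j hj) k (by omega))
    (fun k hk => tr_loc (m + 1 + 1) QQ E (fun j hj => hQ.loc j hj) (k + 1) (by omega))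
    (m + 1 + 1) 0 (by omega)
  have hl := end_left hE he (m + 1 + 1) QQ dQ eQ (hsQ u) (dx 0) (dx 1)
  have hr := end_right hE he (m + 1) PP dP eP (hsP u) (dy 0) (dy 1)
  have h1 := (hl.symm.trans hc).trans hr
  have h2 : (∀ y : (X 1).M, (dx 1).f y ∈ Aug (X 2).ρ → ∃ z : (X 0).M, y - (dx 0).f z ∈ Aug (X 1).ρ)
      ↔ (∀ x : P 0, d 0 x ∈ Aug (ρ 1) → x ∈ Aug (ρ 0)) := by
    cases m with
    | zero =>
      constructor
      · intro h (x : P 0) hx
        obtain ⟨z, hz⟩ := h x hx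
        have h5 : x - (0 : P 0) ∈ Aug (ρ 0) := hz
        rwa [sub_zero] at h5
      · intro h (x : P 0) hx
        refine ⟨0, ?_⟩
        have h5 : x - (0 : P 0) ∈ Aug (ρ 0) := by rw [sub_zero]; exact h x hx
        exact h5
    | succ m =>
      constructor
      · intro h (x : P 0) hx
        obtain ⟨z, hz⟩ := h x hx
        have h5 : x - (0 : P 0) ∈ Aug (ρ 0) := hz
        rwa [sub_zero] at h5
      · intro h (x : P 0) hx
        refine ⟨0, ?_⟩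
        have h5 : x - (0 : P 0) ∈ Aug (ρ 0) := by rw [sub_zero]; exact h x hx
        exact h5
  have h3 : (∀ y : (Y 1).M, (dy 1).f y ∈ Aug (Y 2).ρ → ∃ z : (Y 0).M, y - (dy 0).f z ∈ Aug (Y 1).ρ)
      ↔ (∀ y : Q 1, d' 1 y ∈ Aug (ρ' 2) → ∃ z : Q 0, y - d' 0 z ∈ Aug (ρ' 1)) := by
    cases m with
    | zero => exact Iff.rfl
    | succ m => exact Iff.rfl
  exact (h2.symm.trans h1).trans h3

end C37Z
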